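import Mathlib
import Pool.Agent.Zk23.AKDefs3

/-! # Progressions of `k` terms: a lower bound for the exponent -/

set_option autoImplicit false

namespace Pool.Agent.Zk34.AK

open Finset

/-- the values of `d ^ 2 + j d`, `|d| ≤ 2 m`, for `0 ≤ j ≤ m` -/
lemma fibZ (m j : ℕ) (hj : j ≤ m) :
    2 * ((Icc (-(2 * m : ℤ)) (2 * m)).image fun d => d ^ 2 + (j : ℤ) * d).card ≤ 5 * m + 2 := by
  classical
  set E : Finset ℤ := Icc (-(2 * m : ℤ) - j) (2 * m) with hE
  set g : ℤ → ℤ := fun d => d ^ 2 + (j : ℤ) * d with hg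
  have hinv : ∀ d ∈ E, -(j : ℤ) - d ∈ E := by
    intro d hd
    rw [hE, mem_Icc] at hd ⊢
    constructor <;> omega
  have hgg : ∀ d, g (-(j : ℤ) - d) = g d := by
    intro d
    simp only [hg]
    ring
  have h1 : ((Icc (-(2 * m : ℤ)) (2 * m)).image g).card ≤ (E.image g).card := by
    refine card_le_card (image_subset_image fun d hd => ?_)
    rw [mem_Icc] at hd
    rw [hE, mem_Icc]
    constructor <;> omega
  have h2 : E.card = ∑ v ∈ E.image g, (E.filter fun d => g d = v).card :=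
    card_eq_sum_card_image g E
  have hEc : E.card ≤ 5 * m + 1 := by
    rw [hE, Int.card_Icc]
    omega
  set v0 : ℤ := g (-(j : ℤ) / 2) with hv0
  have h3 : ∀ v ∈ E.image g, 2 ≤ (E.filter fun d => g d = v).card + (if v = v0 then 1 else 0) := by
    intro v hv
    obtain ⟨d, hd, rfl⟩ := mem_image.1 hv
    by_cases h : d = -(j : ℤ) - d
    · have hd2 : d = -(j : ℤ) / 2 := by omega
      have : g d = v0 := by rw [hv0, ← hd2]
      rw [if_pos this]
      have : 0 < (E.filter fun e => g e = g d).card :=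
        card_pos.2 ⟨d, mem_filter.2 ⟨hd, rfl⟩⟩
      omega
    · have : ({d, -(j : ℤ) - d} : Finset ℤ) ⊆ E.filter fun e => g e = g d := by
        intro e he
        rcases mem_insert.1 he with rfl | he
        · exact mem_filter.2 ⟨hd, rfl⟩
        · rw [mem_singleton.1 he]
          exact mem_filter.2 ⟨hinv d hd, hgg d⟩
      have h4 := card_le_card this
      rw [card_pair h] at h4
      omega
  have h4 : ∑ v ∈ E.image g, (2 : ℕ) ≤
      ∑ v ∈ E.image g, ((E.filter fun d => g d = v).card + (if v = v0 then 1 else 0)) :=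
    sum_le_sum h3
  rw [sum_add_distrib, ← h2, sum_const, smul_eq_mul] at h4
  have h5 : ∑ v ∈ E.image g, (if v = v0 then 1 else 0) ≤ 1 := by
    rw [sum_ite_eq']
    split_ifs <;> omega
  omega

theorem ap_bad4 (k : ℕ) (hk : 2 ≤ k) (κ : ℝ) (hκ : κ ≤ 1 + 1 / (4 * (Real.log k + 2))) :
    ¬ Pool.Agent.Zk23.AKAP.APBound k κ := by
  classical
  intro hB
  obtain ⟨m, rfl⟩ : ∃ m, k = m + 1 := ⟨k - 1, by omega⟩
  have hm : 1 ≤ m := by omega
  have hmR : (1 : ℝ) ≤ m := by exact_mod_cast hm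
  set D : Finset ℤ := Icc (-(2 * m : ℤ)) (2 * m) with hD
  have hDc : D.card = 4 * m + 1 := by
    rw [hD, Int.card_Icc]
    omega
  have h := hB (D.image fun d => (d ^ 2, d))
  have h1 : ((D.image fun d : ℤ => (d ^ 2, d)).image Prod.snd).card = 4 * m + 1 := by
    rw [image_image]
    have : Prod.snd ∘ (fun d : ℤ => (d ^ 2, d)) = id := rfl
    rw [this, image_id, hDc]
  rw [h1] at h
  set M : ℕ := (Finset.range (m + 1)).sup fun j =>
    ((D.image fun d : ℤ => (d ^ 2, d)).image fun p => p.1 + (j : ℤ) * p.2).card with hM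
  have hM2 : 2 * M ≤ 5 * m + 2 := by
    obtain ⟨j, hj, hje⟩ := exists_mem_eq_sup (Finset.range (m + 1)) ⟨0, by simp⟩ fun j : ℕ =>
      ((D.image fun d : ℤ => (d ^ 2, d)).image fun p => p.1 + (j : ℤ) * p.2).card
    rw [hM, hje, image_image]
    exact fibZ m j (by have := mem_range.1 hj; omega)
  have hM1 : 1 ≤ M := by
    have h0 : (0 : ℕ) ∈ Finset.range (m + 1) := by simp
    have := le_sup (f := fun j : ℕ =>
      ((D.image fun d : ℤ => (d ^ 2, d)).image fun p => p.1 + (j : ℤ) * p.2).card) h0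
    refine le_trans ?_ this
    refine card_pos.2 (((Finset.card_pos.1 ?_).image _).image _)
    omega
  have hM1' : (1 : ℝ) ≤ M := by exact_mod_cast hM1
  have hM2' : (M : ℝ) ≤ 7 / 10 * (4 * m + 1) := by
    have : (2 : ℝ) * M ≤ 5 * m + 2 := by exact_mod_cast hM2
    linarith
  have hkc : ((m + 1 : ℕ) : ℝ) = m + 1 := by push_cast; rfl
  rw [hkc] at hκ
  have hlm : 0 < Real.log (m + 1) := Real.log_pos (by linarith)
  set κ' : ℝ := 1 + 1 / (4 * (Real.log (m + 1) + 2)) with hκ'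
  have hκ0 : 0 ≤ κ' := by positivity
  have h2 : (4 * m + 1 : ℝ) ≤ (7 / 10 * (4 * m + 1)) ^ κ' := by
    calc (4 * m + 1 : ℝ) ≤ (M : ℝ) ^ κ := by exact_mod_cast h
      _ ≤ (M : ℝ) ^ κ' := Real.rpow_le_rpow_of_exponent_le hM1' hκ
      _ ≤ _ := Real.rpow_le_rpow (by linarith) hM2' hκ0
  have h3 := Real.log_le_log (by linarith) h2
  rw [Real.log_rpow (by positivity), Real.log_mul (by norm_num) (by linarith)] at h3
  have h4 : Real.log (7 / 10) ≤ 7 / 10 - 1 := Real.log_le_sub_one_of_pos (by norm_num)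
  have h5 : Real.log (4 * m + 1) ≤ Real.log (m + 1) + 2 := by
    have h6 : Real.log (4 * m + 1) ≤ Real.log (4 * (m + 1)) :=
      Real.log_le_log (by linarith) (by linarith)
    rw [Real.log_mul (by norm_num) (by linarith)] at h6
    have h7 : Real.log 4 = 2 * Real.log 2 := by
      rw [show (4 : ℝ) = 2 ^ 2 by norm_num, Real.log_pow]
      norm_num
    have h8 := Real.log_two_lt_d9
    linarith
  have h6 : 1 / (4 * (Real.log (m + 1) + 2)) * Real.log (4 * m + 1) ≤ 1 / 4 := by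
    rw [div_mul_eq_mul_div, div_le_iff₀ (by positivity)]
    linarith
  have h7 : 1 / (4 * (Real.log (m + 1) + 2)) * Real.log (7 / 10) ≤ 0 :=
    mul_nonpos_of_nonneg_of_nonpos (by positivity) (by linarith)
  have h8 : κ' * (Real.log (7 / 10) + Real.log (4 * m + 1)) =
      Real.log (7 / 10) + Real.log (4 * m + 1) +
      1 / (4 * (Real.log (m + 1) + 2)) * Real.log (4 * m + 1) +
      1 / (4 * (Real.log (m + 1) + 2)) * Real.log (7 / 10) := by
    rw [hκ']
    ring
  rw [h8] at h3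
  linarith

theorem ap_bad (k : ℕ) (hk : 2 ≤ k) (κ : ℝ) (hκ : κ ≤ 1 + 1 / (60 * (Real.log k + 2))) :
    ¬ Pool.Agent.Zk23.AKAP.APBound k κ := by
  refine ap_bad4 k hk κ (hκ.trans ?_)
  have hk1 : (1 : ℝ) ≤ k := by
    have : 1 ≤ k := by omega
    exact_mod_cast this
  have h0 : 0 ≤ Real.log k := Real.log_nonneg hk1
  have : 1 / (60 * (Real.log k + 2)) ≤ 1 / (4 * (Real.log k + 2)) :=
    one_div_le_one_div_of_le (by positivity) (by linarith)
  linarith

end Pool.Agent.Zk34.AK
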