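import Mathlib

/-! # Polynomial growth of the iterated sums of a set of small doubling -/

set_option autoImplicit false

namespace Pool.Agent.Zk34.AK

open Finset
open scoped Pointwise

/-- an iterated sumset has polynomial growth -/
lemma card_nsmul_le (X : Finset ℚ) (k : ℕ) : (k • X).card ≤ (k + 1) ^ X.card := by
  classical
  have key : ∀ k : ℕ, ∀ z ∈ k • X, ∃ c : X → ℕ, (∀ x, c x ≤ k) ∧ z = ∑ x, c x * (x : ℚ) := by
    intro k
    induction k with
    | zero =>
      intro z hz
      refine ⟨fun _ => 0, fun _ => le_rfl, ?_⟩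
      simpa using hz
    | succ k ih =>
      intro z hz
      rw [succ_nsmul] at hz
      obtain ⟨y, hy, x, hx, rfl⟩ := mem_add.1 hz
      obtain ⟨c, hc, rfl⟩ := ih y hy
      refine ⟨fun a => c a + if a = ⟨x, hx⟩ then 1 else 0, fun a => ?_, ?_⟩
      · have := hc a
        by_cases h : a = ⟨x, hx⟩ <;> simp only [h, if_true, if_false] <;>
          first | omega | (have := hc ⟨x, hx⟩; omega)
      · have : ∑ a : X, ((c a + if a = ⟨x, hx⟩ then 1 else 0 : ℕ) : ℚ) * (a : ℚ) =
            ∑ a : X, ((c a : ℚ) * a + (if a = ⟨x, hx⟩ then (a : ℚ) else 0)) := by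
          refine sum_congr rfl fun a _ => ?_
          by_cases h : a = ⟨x, hx⟩
          · simp only [h, if_true]
            push_cast
            ring
          · simp only [h, if_false]
            push_cast
            ring
        rw [this, sum_add_distrib, sum_ite_eq' univ (⟨x, hx⟩ : X) fun a => (a : ℚ)]
        simp
  have hsub : k • X ⊆ (Fintype.piFinset fun _ : X => range (k + 1)).image
      fun c : X → ℕ => ∑ x : X, (c x : ℚ) * (x : ℚ) := by
    intro z hz
    obtain ⟨c, hc, rfl⟩ := key k z hz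
    refine mem_image.2 ⟨c, Fintype.mem_piFinset.2 fun x => mem_range.2 (Nat.lt_succ_of_le (hc x)), rfl⟩
  refine (card_le_card hsub).trans (card_image_le.trans ?_)
  rw [Fintype.card_piFinset]
  simp

/-- the covering of the iterated sums of `P - P` -/
lemma cover {P : Finset ℚ} (hP : P.Nonempty) {K : ℝ}
    (hK : ((P + P).card : ℝ) ≤ K * P.card) : ∃ X : Finset ℚ, (X.card : ℝ) ≤ K ^ 5 ∧
      (P - P) + (P - P) ⊆ X + (P - P) := by
  classical
  have hPc : (0 : ℝ) < P.card := by exact_mod_cast card_pos.2 hP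
  have hp := pluennecke_ruzsa_inequality_nsmul_sub_nsmul_add hP P 3 2
  have hp' : (((3 • P - 2 • P).card : ℕ) : ℝ) ≤ (((P + P).card : ℝ) / P.card) ^ 5 * P.card := by
    have := (NNRat.cast_le (K := ℝ)).2 hp
    push_cast at this
    exact this
  have he : (P - P) + (P - P) + P = 3 • P - 2 • P := by
    have e3 : (3 : ℕ) • P = P + P + P := by rw [succ_nsmul, succ_nsmul, one_nsmul]
    have e2 : (2 : ℕ) • P = P + P := by rw [succ_nsmul, one_nsmul]
    rw [e3, e2, sub_eq_add_neg, sub_eq_add_neg, neg_add]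
    generalize -P = Q
    ac_rfl
  have h5 : (((P - P) + (P - P) + P).card : ℝ) ≤ K ^ 5 * P.card := by
    rw [he]
    refine hp'.trans ?_
    have hq : ((P + P).card : ℝ) / P.card ≤ K := by
      rw [div_le_iff₀ hPc]
      exact hK
    have := pow_le_pow_left₀ (by positivity : (0 : ℝ) ≤ ((P + P).card : ℝ) / P.card) hq 5
    exact mul_le_mul_of_nonneg_right this hPc.le
  obtain ⟨X, -, h1, h2⟩ := ruzsa_covering_add hP h5
  exact ⟨X, h1, h2⟩

lemma nsmul_cover {T X : Finset ℚ} (h : T + T ⊆ X + T) (n : ℕ) :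
    (n + 1) • T ⊆ n • X + T := by
  classical
  induction n with
  | zero => simp
  | succ n ih =>
    calc (n + 1 + 1) • T = (n + 1) • T + T := succ_nsmul _ _
      _ ⊆ n • X + T + T := add_subset_add_right ih
      _ = n • X + (T + T) := add_assoc _ _ _
      _ ⊆ n • X + (X + T) := add_subset_add_left h
      _ = (n + 1) • X + T := by rw [← add_assoc, succ_nsmul]

/-- polynomial growth of the iterated sums of `P - P` -/
lemma growth {K : ℝ} {P : Finset ℚ} (hP : P.Nonempty)
    (hK : ((P + P).card : ℝ) ≤ K * P.card) (n : ℕ) :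
    (((n + 1) • (P - P)).card : ℝ) ≤ (n + 1 : ℝ) ^ (K ^ 5) * (K ^ 2 * P.card) := by
  classical
  have hPc : (0 : ℝ) < P.card := by exact_mod_cast card_pos.2 hP
  obtain ⟨X, hX, hc⟩ := cover hP hK
  have h1 : ((n + 1) • (P - P)).card ≤ (n • X + (P - P)).card := card_le_card (nsmul_cover hc n)
  have h2 : (n • X + (P - P)).card ≤ (n • X).card * (P - P).card := card_add_le
  have h3 := card_nsmul_le X n
  have hp := pluennecke_ruzsa_inequality_nsmul_sub_nsmul_add hP P 1 1
  have hp' : (((P - P).card : ℕ) : ℝ) ≤ (((P + P).card : ℝ) / P.card) ^ 2 * P.card := by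
    have := (NNRat.cast_le (K := ℝ)).2 hp
    push_cast at this
    simpa using this
  have hq : ((P + P).card : ℝ) / P.card ≤ K := by
    rw [div_le_iff₀ hPc]
    exact hK
  have hpp : (((P - P).card : ℕ) : ℝ) ≤ K ^ 2 * P.card := by
    refine hp'.trans ?_
    have := pow_le_pow_left₀ (by positivity : (0 : ℝ) ≤ ((P + P).card : ℝ) / P.card) hq 2
    exact mul_le_mul_of_nonneg_right this hPc.le
  have hn1 : (1 : ℝ) ≤ (n + 1 : ℝ) := by
    have : (0 : ℝ) ≤ n := Nat.cast_nonneg n
    linarith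
  have h4 : (((n • X).card : ℕ) : ℝ) ≤ (n + 1 : ℝ) ^ (K ^ 5) := by
    calc (((n • X).card : ℕ) : ℝ) ≤ ((n + 1 : ℕ) : ℝ) ^ X.card := by exact_mod_cast h3
      _ = (n + 1 : ℝ) ^ (X.card : ℝ) := by rw [Real.rpow_natCast]; push_cast; rfl
      _ ≤ (n + 1 : ℝ) ^ (K ^ 5) := Real.rpow_le_rpow_of_exponent_le hn1 hX
  calc (((n + 1) • (P - P)).card : ℝ) ≤ ((n • X).card : ℝ) * ((P - P).card : ℝ) := by
        exact_mod_cast h1.trans h2
    _ ≤ (n + 1 : ℝ) ^ (K ^ 5) * (K ^ 2 * P.card) :=
        mul_le_mul h4 hpp (Nat.cast_nonneg _) (Real.rpow_nonneg (by linarith) _)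

end Pool.Agent.Zk34.AK
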