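import Mathlib
import Pool.Agent.R470.AK.Lac2
import Pool.Agent.Zk73.AK.A

/-! # Reflections and the arithmetic Kakeya conjecture -/

set_option autoImplicit false

namespace Pool.Agent.Zk34.AK

open Finset Pool.Agent.R470.AK

/-- the polynomial `d ^ 2 + s d` identifies `d` and `-s - d` -/
lemma fib (D : Finset ℚ) (s : ℚ) :
    2 * (D.image fun d => d ^ 2 + s * d).card ≤ (D ∪ D.image fun d => -s - d).card + 1 := by
  classical
  set E : Finset ℚ := D ∪ D.image fun d => -s - d with hE
  set g : ℚ → ℚ := fun d => d ^ 2 + s * d with hg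
  have hinv : ∀ d ∈ E, -s - d ∈ E := by
    intro d hd
    rcases mem_union.1 hd with h | h
    · exact mem_union_right _ (mem_image_of_mem _ h)
    · obtain ⟨e, he, rfl⟩ := mem_image.1 h
      have : -s - (-s - e) = e := by ring
      rw [this]
      exact mem_union_left _ he
  have hgg : ∀ d, g (-s - d) = g d := by
    intro d
    simp only [hg]
    ring
  have h1 : (D.image g).card ≤ (E.image g).card :=
    card_le_card (image_subset_image subset_union_left)
  have h2 : E.card = ∑ v ∈ E.image g, (E.filter fun d => g d = v).card :=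
    card_eq_sum_card_image g E
  set v0 : ℚ := g (-s / 2) with hv0
  have h3 : ∀ v ∈ E.image g, 2 ≤ (E.filter fun d => g d = v).card + (if v = v0 then 1 else 0) := by
    intro v hv
    obtain ⟨d, hd, rfl⟩ := mem_image.1 hv
    by_cases h : d = -s - d
    · have hd2 : d = -s / 2 := by linarith
      have : g d = v0 := by rw [hv0, hd2]
      rw [if_pos this]
      have : 0 < (E.filter fun e => g e = g d).card :=
        card_pos.2 ⟨d, mem_filter.2 ⟨hd, rfl⟩⟩
      omega
    · have : ({d, -s - d} : Finset ℚ) ⊆ E.filter fun e => g e = g d := by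
        intro e he
        rcases mem_insert.1 he with rfl | he
        · exact mem_filter.2 ⟨hd, rfl⟩
        · rw [mem_singleton.1 he]
          exact mem_filter.2 ⟨hinv d hd, hgg d⟩
      have h4 := card_le_card this
      rw [card_pair h] at h4
      omega
  have h4 : ∑ v ∈ E.image g, (2 : ℕ) ≤
      ∑ v ∈ E.image g, ((E.filter fun d => g d = v).card + (if v = v0 then 1 else 0)) :=
    sum_le_sum h3
  rw [sum_add_distrib, ← h2, sum_const, smul_eq_mul] at h4
  have h5 : ∑ v ∈ E.image g, (if v = v0 then 1 else 0) ≤ 1 := by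
    rw [sum_ite_eq']
    split_ifs <;> omega
  omega

/-- the points `(d ^ 2 + d, d ^ 2)` -/
lemma points (D : Finset ℚ) (hD : D.Nonempty) : ∃ A : Finset (ℤ × ℤ), A.Nonempty ∧
    (proj (-1) A).card = D.card ∧
    (∀ r : ℚ, r ≠ -1 → (proj r A).card = (D.image fun d => d ^ 2 + 1 / (r + 1) * d).card) ∧
    (projInf A).card = (D.image fun d => d ^ 2 + 0 * d).card := by
  classical
  obtain ⟨A, h0, h1, h2⟩ := int_points (D.image fun d => ((d ^ 2 + d, d ^ 2) : ℚ × ℚ))
  refine ⟨A, h0 (hD.image _), ?_, ?_, ?_⟩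
  · rw [h1, image_image]
    have : (fun p : ℚ × ℚ => p.1 + -1 * p.2) ∘ (fun d : ℚ => ((d ^ 2 + d, d ^ 2) : ℚ × ℚ)) = id := by
      funext d
      simp only [Function.comp, id]
      ring
    rw [this, image_id]
  · intro r hr
    have hr' : r + 1 ≠ 0 := fun h => hr (by linarith)
    rw [h1, image_image]
    have : (fun p : ℚ × ℚ => p.1 + r * p.2) ∘ (fun d : ℚ => ((d ^ 2 + d, d ^ 2) : ℚ × ℚ)) =
        (fun x => (r + 1) * x) ∘ fun d : ℚ => d ^ 2 + 1 / (r + 1) * d := by
      funext d
      simp only [Function.comp]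
      field_simp
      ring
    rw [this, ← image_image, card_image_of_injective]
    exact fun x y h => mul_left_cancel₀ hr' h
  · rw [h2, image_image]
    congr 1
    refine image_congr fun d _ => ?_
    simp only [Function.comp]
    ring

/-- one set of points with many differences contradicts the inequality with any constant -/
lemma power {S : Finset ℚ} {κ κ' C M : ℝ} (hκ : κ ≤ κ') (h0 : 0 ≤ κ')
    (hU : ∀ A : Finset (ℤ × ℤ), ((proj (-1) A).card : ℝ) ≤ C * (big S A : ℝ) ^ κ)
    {A : Finset (ℤ × ℤ)} (hA : A.Nonempty) (hM : 1 ≤ M) (h1 : ((projInf A).card : ℝ) ≤ M)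
    (h2 : ∀ r ∈ S, ((proj r A).card : ℝ) ≤ M) : ((proj (-1) A).card : ℝ) ≤ M ^ κ' := by
  classical
  by_contra hcon
  push Not at hcon
  have hMp : 0 < M ^ κ' := Real.rpow_pos_of_pos (by linarith) _
  have hq : 1 < ((proj (-1) A).card : ℝ) / M ^ κ' := (one_lt_div hMp).2 hcon
  obtain ⟨j, hj⟩ := pow_unbounded_of_one_lt |C| hq
  obtain ⟨B, hB, b1, b2, b3⟩ := Pool.Agent.Zk73.AK.prods (fun _ => A) j (fun _ _ => hA)
  have hb1 : ((proj (-1) B).card : ℝ) = ((proj (-1) A).card : ℝ) ^ j := by
    have : (proj (-1) B).card = (proj (-1) A).card ^ j := by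
      rw [show (proj (-1) B).card = ∏ i ∈ range j, (proj (-1) A).card from b1, prod_const, card_range]
    rw [this]
    push_cast
    rfl
  have hb2 : ∀ r ∈ S, ((proj r B).card : ℝ) ≤ M ^ j := by
    intro r hr
    have h : (proj r B).card ≤ (proj r A).card ^ j := by
      have := b2 r
      rw [prod_const, card_range] at this
      exact this
    calc ((proj r B).card : ℝ) ≤ ((proj r A).card : ℝ) ^ j := by exact_mod_cast h
      _ ≤ M ^ j := pow_le_pow_left₀ (Nat.cast_nonneg _) (h2 r hr) _
  have hb3 : ((projInf B).card : ℝ) ≤ M ^ j := by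
    have h : (projInf B).card ≤ (projInf A).card ^ j := by
      have := b3
      rw [prod_const, card_range] at this
      exact this
    calc ((projInf B).card : ℝ) ≤ ((projInf A).card : ℝ) ^ j := by exact_mod_cast h
      _ ≤ M ^ j := pow_le_pow_left₀ (Nat.cast_nonneg _) h1 _
  have hbig : (big S B : ℝ) ≤ M ^ j := by
    unfold big
    rw [Nat.cast_max]
    refine max_le hb3 ?_
    rcases S.eq_empty_or_nonempty with hS | hS
    · subst hS
      rw [sup_empty]
      have : (0 : ℝ) ≤ M ^ j := by positivity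
      simpa using this
    · obtain ⟨r, hrS, hre⟩ := exists_mem_eq_sup S hS fun r => (proj r B).card
      rw [hre]
      exact hb2 r hrS
  have hbig1 : (1 : ℝ) ≤ big S B := by
    have : 1 ≤ big S B := by
      unfold big
      refine le_max_of_le_left ?_
      exact card_pos.2 (hB.image _)
    exact_mod_cast this
  have e1 : (M ^ j : ℝ) ^ κ' = (M ^ κ') ^ j := by
    rw [← Real.rpow_natCast, ← Real.rpow_natCast, ← Real.rpow_mul (by linarith),
      ← Real.rpow_mul (by linarith), mul_comm]
  have h5 : ((proj (-1) A).card : ℝ) ^ j ≤ |C| * (M ^ κ') ^ j := by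
    rw [← hb1, ← e1]
    calc ((proj (-1) B).card : ℝ) ≤ C * (big S B : ℝ) ^ κ := hU B
      _ ≤ |C| * (big S B : ℝ) ^ κ := by
          refine mul_le_mul_of_nonneg_right (le_abs_self C) ?_
          exact Real.rpow_nonneg (by linarith) _
      _ ≤ |C| * (M ^ j) ^ κ' := by
          refine mul_le_mul_of_nonneg_left ?_ (abs_nonneg C)
          exact (Real.rpow_le_rpow_of_exponent_le hbig1 hκ).trans
            (Real.rpow_le_rpow (by linarith) hbig h0)
  rw [div_pow, lt_div_iff₀ (by positivity)] at hj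
  linarith

/-- the criterion: a set nearly invariant under the reflections gives a lower bound for `κ` -/
theorem criterion {S : Finset ℚ} (hS : (-1 : ℚ) ∉ S) {κ κ' C : ℝ} (hκ : κ ≤ κ') (h0 : 0 ≤ κ')
    (hU : ∀ A : Finset (ℤ × ℤ), ((proj (-1) A).card : ℝ) ≤ C * (big S A : ℝ) ^ κ)
    {D : Finset ℚ} (hD : D.Nonempty) {M : ℕ}
    (hM : ∀ s ∈ insert 0 (S.image fun r => 1 / (r + 1)), (D ∪ D.image fun d => -s - d).card ≤ M) :
    (D.card : ℝ) ≤ (((M : ℝ) + 1) / 2) ^ κ' := by
  classical
  obtain ⟨A, hA, a1, a2, a3⟩ := points D hD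
  have hM1 : 1 ≤ M := by
    refine le_trans ?_ (hM 0 (mem_insert_self _ _))
    exact card_pos.2 (hD.mono subset_union_left)
  have hM1' : (1 : ℝ) ≤ M := by exact_mod_cast hM1
  have key : ∀ s ∈ insert 0 (S.image fun r => 1 / (r + 1)),
      ((D.image fun d => d ^ 2 + s * d).card : ℝ) ≤ ((M : ℝ) + 1) / 2 := by
    intro s hs
    have h1 := fib D s
    have h2 := hM s hs
    have h3 : 2 * (D.image fun d => d ^ 2 + s * d).card ≤ M + 1 := by omega
    have h4 : (2 : ℝ) * ((D.image fun d => d ^ 2 + s * d).card : ℝ) ≤ (M : ℝ) + 1 := by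
      exact_mod_cast h3
    linarith
  rw [← a1]
  refine power hκ h0 hU hA (by linarith) ?_ ?_
  · rw [a3]
    exact key 0 (mem_insert_self _ _)
  · intro r hr
    rw [a2 r (fun h => hS (h ▸ hr))]
    exact key _ (mem_insert_of_mem (mem_image_of_mem _ hr))

end Pool.Agent.Zk34.AK
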