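import Mathlib
import Pool.Agent.Zk34.AK.Refl
import Pool.Agent.Zk34.AK.Grow

/-! # Lower bounds for the exponent from the growth of iterated sums -/

set_option autoImplicit false

namespace Pool.Agent.Zk34.AK

open Finset Pool.Agent.R470.AK
open scoped Pointwise

lemma neg_mem_nsmul {T : Finset ℚ} (hT : ∀ t ∈ T, -t ∈ T) (n : ℕ) : ∀ d ∈ n • T, -d ∈ n • T := by
  induction n with
  | zero =>
    intro d hd
    simp only [zero_nsmul] at hd ⊢
    have : d = 0 := by simpa using hd
    rw [this, neg_zero]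
    simp
  | succ n ih =>
    intro d hd
    rw [succ_nsmul] at hd ⊢
    obtain ⟨x, hx, y, hy, rfl⟩ := mem_add.1 hd
    rw [neg_add]
    exact add_mem_add (ih x hx) (hT y hy)

lemma nsmul_subset_succ {T : Finset ℚ} (h0 : (0 : ℚ) ∈ T) (n : ℕ) : n • T ⊆ (n + 1) • T := by
  intro d hd
  rw [succ_nsmul]
  have := add_mem_add hd h0
  rwa [add_zero] at this

lemma nsmul_mono {T : Finset ℚ} (h0 : (0 : ℚ) ∈ T) {m n : ℕ} (h : m ≤ n) : m • T ⊆ n • T := by
  induction n, h using Nat.le_induction with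
  | base => exact Subset.rfl
  | succ n _ ih => exact ih.trans (nsmul_subset_succ h0 n)

lemma mul_mem_nsmul {T : Finset ℚ} {t : ℚ} (h0 : (0 : ℚ) ∈ T) (ht : t ∈ T) (n : ℕ) :
    ∀ i ≤ n, (i : ℚ) * t ∈ n • T := by
  induction n with
  | zero =>
    intro i hi
    have : i = 0 := by omega
    subst this
    simp
  | succ n ih =>
    intro i hi
    rcases Nat.eq_or_lt_of_le hi with rfl | h
    · rw [succ_nsmul]
      have := add_mem_add (ih n le_rfl) ht
      push_cast
      rwa [add_mul, one_mul]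
    · exact nsmul_subset_succ h0 n (ih i (by omega))

lemma lt_card_nsmul {T : Finset ℚ} {t : ℚ} (h0 : (0 : ℚ) ∈ T) (ht : t ∈ T) (ht0 : t ≠ 0) (n : ℕ) :
    n + 1 ≤ (n • T).card := by
  classical
  have h : ((range (n + 1)).image fun i : ℕ => (i : ℚ) * t) ⊆ n • T := by
    intro d hd
    obtain ⟨i, hi, rfl⟩ := mem_image.1 hd
    exact mul_mem_nsmul h0 ht n i (by have := mem_range.1 hi; omega)
  have h2 := card_le_card h
  rwa [card_image_of_injective, card_range] at h2
  intro i j hij
  have : (i : ℚ) * t = j * t := hij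
  exact_mod_cast mul_right_cancel₀ ht0 this

lemma log_five_fourths : (1 : ℝ) / 5 < Real.log (5 / 4) := by
  have h : Real.log (4 / 5) < 4 / 5 - 1 := Real.log_lt_sub_one_of_pos (by norm_num) (by norm_num)
  have h2 : Real.log (5 / 4) = -Real.log (4 / 5) := by
    rw [← Real.log_inv]
    norm_num
  rw [h2]
  linarith

/-- slow growth of the iterated sums gives a lower bound for the exponent -/
theorem core {S : Finset ℚ} (hS : (-1 : ℚ) ∉ S) (hne : S.Nonempty) {κ C : ℝ}
    (hU : ∀ A : Finset (ℤ × ℤ), ((proj (-1) A).card : ℝ) ≤ C * (big S A : ℝ) ^ κ)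
    {T : Finset ℚ} (h0 : (0 : ℚ) ∈ T) (hneg : ∀ t ∈ T, -t ∈ T)
    (hST : ∀ r ∈ S, 1 / (r + 1) ∈ T) {n₀ : ℕ} (hn : 10 ≤ n₀)
    (hg : ((n₀ • T).card : ℝ) < (3 / 2 : ℝ) ^ (n₀ - 10) * (10 • T).card) :
    1 + 1 / 5 / Real.log (n₀ • T).card < κ := by
  classical
  obtain ⟨r0, hr0⟩ := hne
  have ht0 : 1 / (r0 + 1) ≠ 0 := by
    have : r0 + 1 ≠ 0 := fun h => hS (by
      have : r0 = -1 := by linarith
      rwa [← this])
    exact one_div_ne_zero this
  -- a step with small growth
  obtain ⟨n, hn1, hn2, hstep⟩ : ∃ n : ℕ, 10 ≤ n ∧ n < n₀ ∧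
      ((((n + 1) • T).card : ℕ) : ℝ) ≤ 3 / 2 * (n • T).card := by
    by_contra hcon
    push Not at hcon
    have key : ∀ j : ℕ, 10 + j ≤ n₀ →
        (3 / 2 : ℝ) ^ j * (10 • T).card ≤ (((10 + j) • T).card : ℝ) := by
      intro j
      induction j with
      | zero => intro _; simp
      | succ j ih =>
        intro hj
        have h1 := ih (by omega)
        have h2 := hcon (10 + j) (by omega) (by omega)
        rw [← add_assoc]
        rw [pow_succ]
        nlinarith
    have := key (n₀ - 10) (by omega)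
    rw [show 10 + (n₀ - 10) = n₀ by omega] at this
    linarith
  set N : ℕ := (n • T).card with hN
  have hN11 : 11 ≤ N := by
    have := lt_card_nsmul h0 (hST r0 hr0) ht0 n
    omega
  have hN11' : (11 : ℝ) ≤ N := by exact_mod_cast hN11
  have hN0 : (N : ℝ) ≤ (n₀ • T).card := by
    exact_mod_cast card_le_card (nsmul_mono h0 hn2.le)
  by_contra hκ
  push Not at hκ
  have hlogN : 0 < Real.log N := Real.log_pos (by linarith)
  have hlog0 : Real.log N ≤ Real.log (n₀ • T).card :=
    Real.log_le_log (by linarith) hN0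
  have hlogp : 0 < Real.log (n₀ • T).card := by linarith
  have hκ0 : (0 : ℝ) ≤ 1 + 1 / 5 / Real.log (n₀ • T).card := by positivity
  have hD : (n • T).Nonempty := card_pos.1 (by omega)
  have h1 := criterion hS hκ hκ0 hU hD (M := ((n + 1) • T).card) (by
    intro s hs
    refine card_le_card (union_subset (nsmul_subset_succ h0 n) ?_)
    intro e he
    obtain ⟨d, hd, rfl⟩ := mem_image.1 he
    have hsT : -s ∈ T := by
      rcases mem_insert.1 hs with rfl | hs
      · rwa [neg_zero]
      · obtain ⟨r, hr, rfl⟩ := mem_image.1 hs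
        exact hneg _ (hST r hr)
    have h2 := add_mem_add (neg_mem_nsmul hneg n d hd) hsT
    rw [succ_nsmul, show -s - d = -d + -s by ring]
    exact h2)
  rw [← hN] at h1
  have h2 : ((((n + 1) • T).card : ℕ) + 1 : ℝ) / 2 ≤ 4 / 5 * N := by linarith
  have h3 : (N : ℝ) ≤ (4 / 5 * N : ℝ) ^ (1 + 1 / 5 / Real.log (n₀ • T).card) :=
    h1.trans (Real.rpow_le_rpow (by positivity) h2 hκ0)
  have h4 := Real.log_le_log (by linarith) h3
  rw [Real.log_rpow (by positivity), Real.log_mul (by norm_num) (by linarith)] at h4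
  have h5 : Real.log (4 / 5) = -Real.log (5 / 4) := by
    rw [← Real.log_inv]
    norm_num
  rw [h5] at h4
  have h6 := log_five_fourths
  have h7 : 1 / 5 / Real.log (n₀ • T).card * Real.log N ≤ 1 / 5 := by
    rw [div_mul_eq_mul_div, div_le_iff₀ hlogp]
    nlinarith
  have h8 : 0 ≤ 1 / 5 / Real.log (n₀ • T).card * Real.log (5 / 4) := by
    have : 0 < Real.log (5 / 4) := by linarith
    positivity
  nlinarith

end Pool.Agent.Zk34.AK
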