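import Mathlib
import Pool.Agent.Zk34.AK.Core

/-! # Structured sets of slopes -/

set_option autoImplicit false

namespace Pool.Agent.Zk34.AK

open Finset Pool.Agent.R470.AK
open scoped Pointwise

lemma third_le_log : (1 : ℝ) / 3 ≤ Real.log (3 / 2) := by
  have h : Real.log (2 / 3) ≤ 2 / 3 - 1 := Real.log_le_sub_one_of_pos (by norm_num)
  have h2 : Real.log (3 / 2) = -Real.log (2 / 3) := by
    rw [← Real.log_inv]
    norm_num
  rw [h2]
  linarith

/-- a comparison of logarithms gives the hypothesis of `core` -/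
lemma lt_pow_of_log {x y : ℝ} {n₀ : ℕ} (hx : 0 < x) (hy : 1 ≤ y) (hn : 10 ≤ n₀)
    (h : Real.log x < (n₀ - 10 : ℝ) / 3) : x < (3 / 2 : ℝ) ^ (n₀ - 10) * y := by
  have h1 : x < (3 / 2 : ℝ) ^ (n₀ - 10) := by
    rw [← Real.log_lt_log_iff hx (by positivity), Real.log_pow, Nat.cast_sub hn]
    have h3 := third_le_log
    have h4 : (0 : ℝ) ≤ (n₀ : ℝ) - 10 := by
      have : (10 : ℝ) ≤ n₀ := by exact_mod_cast hn
      linarith
    push_cast
    nlinarith
  have h2 : (0 : ℝ) < (3 / 2 : ℝ) ^ (n₀ - 10) := by positivity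
  nlinarith

theorem doubling {S : Finset ℚ} (hS : (-1 : ℚ) ∉ S) (hne : S.Nonempty) {κ C : ℝ}
    (hU : ∀ A : Finset (ℤ × ℤ), ((proj (-1) A).card : ℝ) ≤ C * (big S A : ℝ) ^ κ)
    {P : Finset ℚ} (h0 : (0 : ℚ) ∈ P) (hSP : ∀ r ∈ S, 1 / (r + 1) ∈ P) {K : ℝ}
    (hK : ((P + P).card : ℝ) ≤ K * P.card) :
    1 + 1 / (40 * (Real.log P.card + K ^ 6)) < κ := by
  classical
  have hP : P.Nonempty := ⟨0, h0⟩
  have hPc : (1 : ℝ) ≤ P.card := by exact_mod_cast card_pos.2 hP
  have hK1 : 1 ≤ K := by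
    have h1 : P.card ≤ (P + P).card := by
      refine card_le_card fun x hx => ?_
      have := add_mem_add hx h0
      rwa [add_zero] at this
    have h2 : (P.card : ℝ) ≤ (P + P).card := by exact_mod_cast h1
    by_contra hc
    push Not at hc
    nlinarith
  set T : Finset ℚ := P - P with hT
  have hPT : P ⊆ T := by
    intro x hx
    have := sub_mem_sub hx h0
    rwa [sub_zero] at this
  have hT0 : (0 : ℚ) ∈ T := hPT h0
  have hneg : ∀ t ∈ T, -t ∈ T := by
    intro t ht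
    obtain ⟨x, hx, y, hy, rfl⟩ := mem_sub.1 ht
    rw [neg_sub]
    exact sub_mem_sub hy hx
  have hK6 : 1 ≤ K ^ 6 := one_le_pow₀ hK1
  set n₀ : ℕ := ⌈100 * K ^ 6⌉₊ with hn₀
  have hn1 : 100 * K ^ 6 ≤ (n₀ : ℝ) := Nat.le_ceil _
  have hn2 : (n₀ : ℝ) < 100 * K ^ 6 + 1 := Nat.ceil_lt_add_one (by positivity)
  have hn3 : (100 : ℝ) ≤ n₀ := by linarith
  have hn4 : 100 ≤ n₀ := by exact_mod_cast hn3
  have hlogK : Real.log K ≤ K - 1 := Real.log_le_sub_one_of_pos (by linarith)
  have hlogK0 : 0 ≤ Real.log K := Real.log_nonneg hK1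
  have hlogn : Real.log n₀ ≤ 6 * K := by
    have h1 : (n₀ : ℝ) ≤ 128 * K ^ 6 := by linarith
    have h2 : Real.log n₀ ≤ Real.log (128 * K ^ 6) := Real.log_le_log (by linarith) h1
    rw [Real.log_mul (by norm_num) (by positivity), Real.log_pow] at h2
    have h3 : Real.log 128 = 7 * Real.log 2 := by
      rw [show (128 : ℝ) = 2 ^ 7 by norm_num, Real.log_pow]
      norm_num
    have h4 := Real.log_two_lt_d9
    push_cast at h2
    linarith
  obtain ⟨m, hm⟩ : ∃ m, n₀ = m + 1 := ⟨n₀ - 1, by omega⟩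
  have hgr := growth hP hK m
  rw [← hT, ← hm, show ((m : ℝ) + 1) = (n₀ : ℝ) by rw [hm]; push_cast; rfl] at hgr
  have hK5 : 0 ≤ K ^ 5 := by positivity
  have hTc : 1 ≤ (n₀ • T).card := by
    have h := card_le_card (nsmul_mono hT0 (show 0 ≤ n₀ by omega))
    have h' : (0 • T).card = 1 := by simp
    omega
  have hTc' : (1 : ℝ) ≤ (n₀ • T).card := by exact_mod_cast hTc
  have hlog : Real.log (n₀ • T).card ≤ 8 * K ^ 6 + Real.log P.card := by
    have h1 := Real.log_le_log (by linarith) hgr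
    rw [Real.log_mul (by positivity) (by positivity), Real.log_rpow (by linarith),
      Real.log_mul (by positivity) (by positivity), Real.log_pow] at h1
    have h2 : K ^ 5 * Real.log n₀ ≤ 6 * K ^ 6 := by
      calc K ^ 5 * Real.log n₀ ≤ K ^ 5 * (6 * K) := mul_le_mul_of_nonneg_left hlogn hK5
        _ = 6 * K ^ 6 := by ring
    have h3 : K ≤ K ^ 6 := by
      calc K = K ^ 1 := (pow_one K).symm
        _ ≤ K ^ 6 := pow_le_pow_right₀ hK1 (by norm_num)
    push_cast at h1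
    linarith
  have h10 : (P.card : ℝ) ≤ (10 • T).card := by
    have h1 := card_le_card (nsmul_mono hT0 (show 1 ≤ 10 by norm_num))
    rw [one_nsmul] at h1
    exact_mod_cast (card_le_card hPT).trans h1
  have hg : ((n₀ • T).card : ℝ) < (3 / 2 : ℝ) ^ (n₀ - 10) * (10 • T).card := by
    have h1 : (n₀ : ℝ) ^ (K ^ 5) * K ^ 2 < (3 / 2 : ℝ) ^ (n₀ - 10) * 1 := by
      refine lt_pow_of_log (by positivity) le_rfl (by omega) ?_
      rw [Real.log_mul (by positivity) (by positivity), Real.log_rpow (by linarith), Real.log_pow]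
      have h2 : K ^ 5 * Real.log n₀ ≤ 6 * K ^ 6 := by
        calc K ^ 5 * Real.log n₀ ≤ K ^ 5 * (6 * K) := mul_le_mul_of_nonneg_left hlogn hK5
          _ = 6 * K ^ 6 := by ring
      have h3 : K ≤ K ^ 6 := by
        calc K = K ^ 1 := (pow_one K).symm
          _ ≤ K ^ 6 := pow_le_pow_right₀ hK1 (by norm_num)
      push_cast
      linarith
    rw [mul_one] at h1
    calc ((n₀ • T).card : ℝ) ≤ (n₀ : ℝ) ^ (K ^ 5) * (K ^ 2 * P.card) := hgr
      _ = (n₀ : ℝ) ^ (K ^ 5) * K ^ 2 * P.card := by ring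
      _ < (3 / 2 : ℝ) ^ (n₀ - 10) * P.card := mul_lt_mul_of_pos_right h1 (by linarith)
      _ ≤ (3 / 2 : ℝ) ^ (n₀ - 10) * (10 • T).card := by
          exact mul_le_mul_of_nonneg_left h10 (by positivity)
  have hmain := core hS hne hU hT0 hneg (fun r hr => hPT (hSP r hr)) (show 10 ≤ n₀ by omega) hg
  refine lt_of_le_of_lt ?_ hmain
  have hlp : 0 < Real.log (n₀ • T).card := by
    obtain ⟨r0, hr0⟩ := hne
    have ht0 : 1 / (r0 + 1) ≠ 0 := by
      have : r0 + 1 ≠ 0 := fun h => hS (by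
        have : r0 = -1 := by linarith
        rwa [← this])
      exact one_div_ne_zero this
    have h1 := lt_card_nsmul hT0 (hPT (hSP r0 hr0)) ht0 n₀
    have h2 : (1 : ℝ) < (n₀ • T).card := by
      have : 1 < (n₀ • T).card := by omega
      exact_mod_cast this
    exact Real.log_pos h2
  have hlogP : 0 ≤ Real.log P.card := Real.log_nonneg hPc
  have h1 : 1 / (40 * (Real.log P.card + K ^ 6)) ≤ 1 / 5 / Real.log (n₀ • T).card := by
    rw [div_div]
    refine one_div_le_one_div_of_le (by positivity) ?_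
    nlinarith
  linarith

end Pool.Agent.Zk34.AK
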