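import Mathlib
import Pool.Agent.Zk34.AK.Main

/-! # Slopes in generalized arithmetic progressions -/

set_option autoImplicit false

namespace Pool.Agent.Zk34.AK

open Finset Pool.Agent.R470.AK
open scoped Pointwise

/-- the generalized arithmetic progression `{∑ c_i a_i : 0 ≤ c_i < N_i}` -/
noncomputable def gap {l : ℕ} (a : Fin l → ℚ) (N : Fin l → ℕ) : Finset ℚ :=
  (Fintype.piFinset fun i => range (N i)).image fun c => ∑ i, (c i : ℚ) * a i

/-- the symmetric box -/
noncomputable def box {l : ℕ} (a : Fin l → ℚ) (B : Fin l → ℕ) : Finset ℚ :=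
  (Fintype.piFinset fun i => Icc (-(B i : ℤ)) (B i)).image fun c : Fin l → ℤ => ∑ i, (c i : ℚ) * a i

lemma mem_box {l : ℕ} {a : Fin l → ℚ} {B : Fin l → ℕ} {z : ℚ} :
    z ∈ box a B ↔ ∃ c : Fin l → ℤ, (∀ i, -(B i : ℤ) ≤ c i ∧ c i ≤ B i) ∧ ∑ i, (c i : ℚ) * a i = z := by
  simp only [box, mem_image, Fintype.mem_piFinset, mem_Icc]

lemma card_box_le {l : ℕ} (a : Fin l → ℚ) (B : Fin l → ℕ) :
    (box a B).card ≤ ∏ i, (2 * B i + 1) := by
  refine card_image_le.trans ?_
  rw [Fintype.card_piFinset]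
  refine prod_le_prod' fun i _ => ?_
  rw [Int.card_Icc]
  omega

lemma nsmul_box {l : ℕ} (a : Fin l → ℚ) (B : Fin l → ℕ) (n : ℕ) :
    n • box a B ⊆ box a fun i => n * B i := by
  induction n with
  | zero =>
    intro z hz
    have : z = 0 := by simpa using hz
    subst this
    exact mem_box.2 ⟨fun _ => 0, fun i => by simp, by simp⟩
  | succ n ih =>
    intro z hz
    rw [succ_nsmul] at hz
    obtain ⟨x, hx, y, hy, rfl⟩ := mem_add.1 hz
    obtain ⟨c, hc, rfl⟩ := mem_box.1 (ih hx)
    obtain ⟨c', hc', rfl⟩ := mem_box.1 hy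
    refine mem_box.2 ⟨fun i => c i + c' i, fun i => ?_, ?_⟩
    · have h1 := hc i
      have h2 := hc' i
      push_cast at h1 ⊢
      constructor <;> nlinarith
    · rw [← sum_add_distrib]
      refine sum_congr rfl fun i _ => ?_
      push_cast
      ring

theorem progression {S : Finset ℚ} (hS : (-1 : ℚ) ∉ S) (hne : S.Nonempty) {κ C : ℝ}
    (hU : ∀ A : Finset (ℤ × ℤ), ((proj (-1) A).card : ℝ) ≤ C * (big S A : ℝ) ^ κ)
    {l : ℕ} (a : Fin l → ℚ) (N : Fin l → ℕ) (hSP : ∀ r ∈ S, 1 / (r + 1) ∈ gap a N) :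
    1 + 1 / (60 * (l * Real.log (l + 1) + Real.log (∏ i, (N i : ℝ)) + 1)) < κ := by
  classical
  obtain ⟨r0, hr0⟩ := id hne
  have ht0 : 1 / (r0 + 1) ≠ 0 := by
    have : r0 + 1 ≠ 0 := fun h => hS (by
      have : r0 = -1 := by linarith
      rwa [← this])
    exact one_div_ne_zero this
  have hN1 : ∀ i, 1 ≤ N i := by
    obtain ⟨c, hc, -⟩ := mem_image.1 (hSP r0 hr0)
    intro i
    have := mem_range.1 (Fintype.mem_piFinset.1 hc i)
    omega
  set T : Finset ℚ := box a fun i => N i - 1 with hT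
  have hgT : gap a N ⊆ T := by
    intro z hz
    obtain ⟨c, hc, rfl⟩ := mem_image.1 hz
    refine mem_box.2 ⟨fun i => (c i : ℤ), fun i => ?_, by push_cast; rfl⟩
    have h1 := mem_range.1 (Fintype.mem_piFinset.1 hc i)
    have h2 := hN1 i
    dsimp only
    constructor <;> omega
  have hT0 : (0 : ℚ) ∈ T := mem_box.2 ⟨fun _ => 0, fun i => by dsimp only; constructor <;> omega, by simp⟩
  have hneg : ∀ t ∈ T, -t ∈ T := by
    intro t ht
    obtain ⟨c, hc, rfl⟩ := mem_box.1 ht
    refine mem_box.2 ⟨fun i => -c i, fun i => ?_, ?_⟩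
    · have h1 := hc i
      dsimp only at h1 ⊢
      constructor <;> omega
    · rw [← sum_neg_distrib]
      refine sum_congr rfl fun i _ => ?_
      push_cast
      ring
  set V : ℝ := ∏ i, (N i : ℝ) with hV
  have hV1 : 1 ≤ V := by
    have h : ∏ i : Fin l, (1 : ℝ) ≤ ∏ i, (N i : ℝ) :=
      prod_le_prod (fun _ _ => zero_le_one) fun i _ => by exact_mod_cast hN1 i
    simpa using h
  have hlV : 0 ≤ Real.log V := Real.log_nonneg hV1
  have hl0 : (0 : ℝ) ≤ l := Nat.cast_nonneg l
  have hll : 0 ≤ (l : ℝ) * Real.log (l + 1) := mul_nonneg hl0 (Real.log_nonneg (by linarith))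
  set E : ℝ := l * Real.log (l + 1) + Real.log V + 1 with hE
  have hE1 : 1 ≤ E := by linarith
  set n₀ : ℕ := ⌈100 * E⌉₊ with hn₀
  have hn1 : 100 * E ≤ (n₀ : ℝ) := Nat.le_ceil _
  have hn2 : (n₀ : ℝ) < 100 * E + 1 := Nat.ceil_lt_add_one (by positivity)
  have hn3 : (100 : ℝ) ≤ n₀ := by linarith
  have hn4 : 100 ≤ n₀ := by exact_mod_cast hn3
  -- the size of the iterated sum
  have hcard : ((n₀ • T).card : ℝ) ≤ (2 * n₀ : ℝ) ^ l * V := by
    have h1 := (card_le_card (nsmul_box a (fun i => N i - 1) n₀)).trans (card_box_le a _)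
    have h2 : ∏ i : Fin l, (2 * (n₀ * (N i - 1)) + 1) ≤ ∏ i : Fin l, (2 * n₀) * N i := by
      refine prod_le_prod' fun i _ => ?_
      obtain ⟨b, hb⟩ : ∃ b, N i = b + 1 := ⟨N i - 1, by have := hN1 i; omega⟩
      rw [hb, Nat.add_sub_cancel]
      nlinarith
    have h3 : ((n₀ • T).card : ℝ) ≤ ((∏ i : Fin l, (2 * n₀) * N i : ℕ) : ℝ) := by
      exact_mod_cast h1.trans h2
    refine h3.trans (le_of_eq ?_)
    push_cast
    rw [prod_mul_distrib, prod_const, card_univ, Fintype.card_fin]
  have hTc : 1 ≤ (n₀ • T).card := by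
    have h := card_le_card (nsmul_mono hT0 (show 0 ≤ n₀ by omega))
    have h' : (0 • T).card = 1 := by simp
    omega
  have hTc' : (1 : ℝ) ≤ (n₀ • T).card := by exact_mod_cast hTc
  have h2n : (0 : ℝ) < 2 * n₀ := by linarith
  have hlogn : (l : ℝ) * Real.log (2 * n₀) ≤ 10 * E := by
    rcases Nat.eq_zero_or_pos l with rfl | hl
    · simp only [Nat.cast_zero, zero_mul]
      linarith
    · have hl1 : (1 : ℝ) ≤ l := by exact_mod_cast hl
      have h1 : Real.log (2 * n₀) ≤ Real.log (256 * E) :=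
        Real.log_le_log (by linarith) (by linarith)
      have hE0 : 0 < E := by linarith
      rw [show Real.log (256 * E) = Real.log 256 + Real.log E from
        Real.log_mul (by norm_num) hE0.ne'] at h1
      have h3 : Real.log 256 = 8 * Real.log 2 := by
        rw [show (256 : ℝ) = 2 ^ 8 by norm_num, Real.log_pow]
        norm_num
      have h4 : Real.log (E / l) ≤ E / l - 1 := Real.log_le_sub_one_of_pos (by positivity)
      rw [Real.log_div (by linarith) (by linarith)] at h4
      have h5 : (l : ℝ) * Real.log E ≤ l * Real.log l + E := by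
        have := mul_le_mul_of_nonneg_left h4 hl0
        have h6 : (l : ℝ) * (E / l - 1) = E - l := by field_simp
        rw [h6] at this
        nlinarith
      have h7 : (l : ℝ) * Real.log l ≤ l * Real.log (l + 1) :=
        mul_le_mul_of_nonneg_left (Real.log_le_log (by linarith) (by linarith)) hl0
      have h8 : (l : ℝ) * Real.log 2 ≤ l * Real.log (l + 1) :=
        mul_le_mul_of_nonneg_left (Real.log_le_log (by norm_num) (by linarith)) hl0
      have h9 : (l : ℝ) * Real.log (2 * n₀) ≤ l * (Real.log 256 + Real.log E) :=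
        mul_le_mul_of_nonneg_left h1 hl0
      rw [h3] at h9
      nlinarith
  have hlog : Real.log ((2 * n₀ : ℝ) ^ l * V) ≤ 11 * E := by
    rw [Real.log_mul (by positivity) (by positivity), Real.log_pow]
    linarith
  have hlog2 : Real.log (n₀ • T).card ≤ 11 * E :=
    (Real.log_le_log (by linarith) hcard).trans hlog
  have h10 : (1 : ℝ) ≤ (10 • T).card := by
    have h := card_le_card (nsmul_mono hT0 (show 0 ≤ 10 by omega))
    have h' : (0 • T).card = 1 := by simp
    have : 1 ≤ (10 • T).card := by omega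
    exact_mod_cast this
  have hg : ((n₀ • T).card : ℝ) < (3 / 2 : ℝ) ^ (n₀ - 10) * (10 • T).card := by
    refine lt_of_le_of_lt hcard (lt_pow_of_log (by positivity) h10 (by omega) ?_)
    linarith
  have hmain := core hS hne hU hT0 hneg (fun r hr => hgT (hSP r hr)) (show 10 ≤ n₀ by omega) hg
  refine lt_of_le_of_lt ?_ hmain
  have hlp : 0 < Real.log (n₀ • T).card := by
    have h1 := lt_card_nsmul hT0 (hgT (hSP r0 hr0)) ht0 n₀
    have h2 : (1 : ℝ) < (n₀ • T).card := by
      have : 1 < (n₀ • T).card := by omega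
      exact_mod_cast this
    exact Real.log_pos h2
  have h1 : 1 / (60 * E) ≤ 1 / 5 / Real.log (n₀ • T).card := by
    rw [div_div]
    refine one_div_le_one_div_of_le (by positivity) ?_
    linarith
  linarith

end Pool.Agent.Zk34.AK
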