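import Mathlib
import Pool.Agent.Zk34.AK.Gap
import Pool.Agent.Zk23.AKDefs

/-! # Structured sets of slopes, in the words of `Pool.Agent.Zk23.AKDefs` -/

set_option autoImplicit false

namespace Pool.Agent.Zk34.AK

open Finset Pool.Agent.Zk23.AKDefs
open scoped Pointwise

lemma of_bound {S : Finset ℚ} {κ : ℝ} (h : Bound S κ) (A : Finset (ℤ × ℤ)) :
    ((Pool.Agent.R470.AK.proj (-1) A).card : ℝ) ≤ 1 * (Pool.Agent.R470.AK.big S A : ℝ) ^ κ := by
  have e1 : ∀ r : ℚ, A.image (pr (some r)) = Pool.Agent.R470.AK.proj r A := by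
    intro r
    unfold Pool.Agent.R470.AK.proj
    congr 1
  have e2 : A.image (pr none) = Pool.Agent.R470.AK.projInf A := by
    unfold Pool.Agent.R470.AK.projInf
    congr 1
  have h1 := h A
  have e3 : big S A = Pool.Agent.R470.AK.big S A := by
    unfold big Pool.Agent.R470.AK.big
    rw [e2]
    congr 2
  rw [e3, e1] at h1
  rw [one_mul]
  exact h1

/-- slopes in a set of small doubling -/
theorem bound_doubling (S : Finset ℚ) (hS : (-1 : ℚ) ∉ S) (hne : S.Nonempty) (κ : ℝ)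
    (h : Bound S κ) (P : Finset ℚ) (K : ℝ) (h0 : (0 : ℚ) ∈ P) (hSP : ∀ r ∈ S, 1 / (r + 1) ∈ P)
    (hK : ((P + P).card : ℝ) ≤ K * P.card) :
    1 + 1 / (40 * (Real.log P.card + K ^ 6)) < κ :=
  doubling hS hne (of_bound h) h0 hSP hK

/-- slopes in a generalized arithmetic progression -/
theorem bound_progression (S : Finset ℚ) (hS : (-1 : ℚ) ∉ S) (hne : S.Nonempty) (κ : ℝ)
    (h : Bound S κ) (l : ℕ) (a : Fin l → ℚ) (N : Fin l → ℕ)
    (hN : ∀ r ∈ S, ∃ c : Fin l → ℕ, (∀ i, c i < N i) ∧ 1 / (r + 1) = ∑ i, (c i : ℚ) * a i) :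
    1 + 1 / (60 * (l * Real.log (l + 1) + Real.log (∏ i, (N i : ℝ)) + 1)) < κ := by
  refine progression hS hne (of_bound h) a N fun r hr => ?_
  obtain ⟨c, hc, h⟩ := hN r hr
  exact Finset.mem_image.2 ⟨c, Fintype.mem_piFinset.2 fun i => Finset.mem_range.2 (hc i), h.symm⟩

end Pool.Agent.Zk34.AK
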